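import Pool.Agent.W263.SP.Stm

/-! Part LIN of the project SP. -/

set_option autoImplicit false

namespace Pool.Agent.W271.SP

open MeasureTheory Set Pool.Agent.W263.SP

/-- the `j`-th weight -/
noncomputable def tj (T : ℝ) (j : ℕ) : ℝ := min 1 (T / (1 + j)) / (1 + j) * Real.log (3 + j)

/-- the telescoping function -/
noncomputable def GG (m : ℝ) : ℝ := (Real.log m + 1) / m

lemma GG_step (m : ℝ) (hm : 1 ≤ m) : Real.log m / m ^ 2 ≤ 2 * (GG m - GG (m + 1)) := by
  have hm0 : 0 < m := by linarith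
  have hl : 0 ≤ Real.log m := Real.log_nonneg hm
  have h1 : Real.log (m + 1) ≤ Real.log m + 1 / m := by
    have h2 := Real.log_le_sub_one_of_pos (x := (m + 1) / m) (by positivity)
    rw [Real.log_div (by positivity) hm0.ne'] at h2
    have h3 : (m + 1) / m - 1 = 1 / m := by field_simp; ring
    linarith
  have h4 : GG (m + 1) ≤ (Real.log m + 1 / m + 1) / (m + 1) := by
    unfold GG
    gcongr
  have h5 : (Real.log m + 1) / m - (Real.log m + 1 / m + 1) / (m + 1) =
      Real.log m / (m * (m + 1)) := by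
    field_simp
    ring
  have h6 : Real.log m / m ^ 2 ≤ 2 * (Real.log m / (m * (m + 1))) := by
    rw [← mul_div_assoc, div_le_div_iff₀ (by positivity) (by positivity)]
    nlinarith [mul_nonneg hl (mul_nonneg hm0.le (by linarith : (0:ℝ) ≤ m - 1))]
  have h7 : GG m = (Real.log m + 1) / m := rfl
  linarith

lemma GG_nonneg (m : ℝ) (hm : 1 ≤ m) : 0 ≤ GG m := by
  unfold GG
  have := Real.log_nonneg hm
  positivity

lemma tj_nonneg (T : ℝ) (hT : 2 ≤ T) (j : ℕ) : 0 ≤ tj T j := by
  unfold tj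
  have h1 : 0 ≤ Real.log (3 + (j : ℝ)) := by
    apply Real.log_nonneg
    have : (0 : ℝ) ≤ j := Nat.cast_nonneg j
    linarith
  have h2 : 0 ≤ min 1 (T / (1 + (j : ℝ))) := le_min zero_le_one (by positivity)
  positivity

lemma sum_bound (T : ℝ) (hT : 2 ≤ T) (N : ℕ) :
    ∑ j ∈ Finset.range N, tj T j ≤ 38 * Real.log T ^ 2 := by
  have hT0 : 0 < T := by linarith
  set l := Real.log T with hl
  have hl2 : 1 / 2 ≤ l := by
    have h1 : Real.log 2 ≤ l := Real.log_le_log (by norm_num) hT
    have := Real.log_two_gt_d9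
    linarith
  have hlT2 : Real.log (T + 2) ≤ 2 * l := by
    have h1 : Real.log (T + 2) ≤ Real.log (T ^ 2) := Real.log_le_log (by linarith) (by nlinarith)
    rw [Real.log_pow] at h1
    exact_mod_cast h1
  have hlT1 : Real.log (T + 1) ≤ 2 * l := (Real.log_le_log (by linarith) (by linarith)).trans hlT2
  have hlT2' : 0 ≤ Real.log (T + 2) := Real.log_nonneg (by linarith)
  set m0 := ⌊T⌋₊ with hm0
  have hm0T : (m0 : ℝ) ≤ T := Nat.floor_le hT0.le
  have hTm0 : T < m0 + 1 := Nat.lt_floor_add_one T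
  -- first part
  have hA : ∀ N : ℕ, N ≤ m0 → ∑ j ∈ Finset.range N, tj T j ≤ Real.log (T + 2) * (1 + l) := by
    intro N hN
    have h1 : ∑ j ∈ Finset.range N, tj T j ≤ Real.log (T + 2) * ((harmonic N : ℚ) : ℝ) := by
      unfold harmonic
      push_cast
      rw [Finset.mul_sum]
      apply Finset.sum_le_sum
      intro j hj
      rw [Finset.mem_range] at hj
      have hjT : (j : ℝ) + 1 ≤ T := by
        have : ((j + 1 : ℕ) : ℝ) ≤ m0 := by exact_mod_cast (by omega : j + 1 ≤ m0)
        push_cast at this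
        linarith
      have hj0 : (0 : ℝ) ≤ j := Nat.cast_nonneg j
      unfold tj
      have h2 : min 1 (T / (1 + (j : ℝ))) / (1 + j) ≤ ((j : ℝ) + 1)⁻¹ := by
        rw [div_eq_mul_inv, add_comm (1 : ℝ) (j : ℝ)]
        have : min 1 (T / ((j : ℝ) + 1)) ≤ 1 := min_le_left _ _
        have h3 : (0 : ℝ) ≤ ((j : ℝ) + 1)⁻¹ := by positivity
        nlinarith
      have h3 : Real.log (3 + (j : ℝ)) ≤ Real.log (T + 2) :=
        Real.log_le_log (by linarith) (by linarith)
      have h4 : 0 ≤ Real.log (3 + (j : ℝ)) := Real.log_nonneg (by linarith)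
      calc min 1 (T / (1 + (j : ℝ))) / (1 + j) * Real.log (3 + j)
          ≤ ((j : ℝ) + 1)⁻¹ * Real.log (T + 2) :=
            mul_le_mul h2 h3 h4 (by positivity)
        _ = Real.log (T + 2) * ((j : ℝ) + 1)⁻¹ := mul_comm _ _
    refine h1.trans (mul_le_mul_of_nonneg_left ?_ hlT2')
    have h5 := harmonic_le_one_add_log N
    rcases Nat.eq_zero_or_pos N with h0 | h0
    · subst h0
      simp
      linarith
    · have h6 : Real.log N ≤ l := by
        apply Real.log_le_log (by exact_mod_cast h0)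
        have : (N : ℝ) ≤ m0 := by exact_mod_cast hN
        linarith
      linarith
  have hB : ∀ N : ℕ, m0 ≤ N → ∑ j ∈ Finset.range N, tj T j ≤
      Real.log (T + 2) * (1 + l) + 4 * T * (GG (m0 + 1) - GG (N + 1)) := by
    intro N hN
    induction N, hN using Nat.le_induction with
    | base =>
      rw [sub_self, mul_zero, add_zero]
      exact hA m0 le_rfl
    | succ N hN ih =>
      rw [Finset.sum_range_succ]
      have hNm : (m0 : ℝ) ≤ N := by exact_mod_cast hN
      have hm : T < (N : ℝ) + 1 := by linarith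
      have h1 := GG_step ((N : ℝ) + 1) (by linarith)
      have h2 : tj T N ≤ 2 * T * (Real.log ((N : ℝ) + 1) / ((N : ℝ) + 1) ^ 2) := by
        unfold tj
        have h3 : Real.log (3 + (N : ℝ)) ≤ 2 * Real.log ((N : ℝ) + 1) := by
          have h4 : Real.log (3 + (N : ℝ)) ≤ Real.log (((N : ℝ) + 1) ^ 2) := by
            apply Real.log_le_log (by linarith)
            nlinarith
          rw [Real.log_pow] at h4
          exact_mod_cast h4
        have h5 : min 1 (T / (1 + (N : ℝ))) / (1 + N) ≤ T / ((N : ℝ) + 1) ^ 2 := by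
          have h6 : min 1 (T / (1 + (N : ℝ))) ≤ T / (1 + (N : ℝ)) := min_le_right _ _
          calc min 1 (T / (1 + (N : ℝ))) / (1 + N) ≤ T / (1 + (N : ℝ)) / (1 + N) := by
                gcongr
            _ = T / ((N : ℝ) + 1) ^ 2 := by
                rw [div_div, add_comm (1 : ℝ) (N : ℝ), sq]
        have h7 : 0 ≤ Real.log (3 + (N : ℝ)) := Real.log_nonneg (by linarith)
        calc min 1 (T / (1 + (N : ℝ))) / (1 + N) * Real.log (3 + N)
            ≤ T / ((N : ℝ) + 1) ^ 2 * (2 * Real.log ((N : ℝ) + 1)) :=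
              mul_le_mul h5 h3 h7 (by positivity)
          _ = 2 * T * (Real.log ((N : ℝ) + 1) / ((N : ℝ) + 1) ^ 2) := by ring
      have h8 : ((N + 1 : ℕ) : ℝ) + 1 = (N : ℝ) + 1 + 1 := by push_cast; ring
      rw [h8]
      have h9 : 2 * T * (Real.log ((N : ℝ) + 1) / ((N : ℝ) + 1) ^ 2) ≤
          2 * T * (2 * (GG ((N : ℝ) + 1) - GG ((N : ℝ) + 1 + 1))) :=
        mul_le_mul_of_nonneg_left h1 (by positivity)
      nlinarith
  have hfin : Real.log (T + 2) * (1 + l) ≤ 6 * l ^ 2 := by nlinarith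
  rcases le_total N m0 with h | h
  · have := hA N h
    nlinarith
  · have h1 := hB N h
    have h2 : 0 ≤ GG ((N : ℝ) + 1) := GG_nonneg _ (by have : (0:ℝ) ≤ N := Nat.cast_nonneg N; linarith)
    have h3 : T * GG ((m0 : ℝ) + 1) ≤ 2 * l + 1 := by
      unfold GG
      have h4 : Real.log ((m0 : ℝ) + 1) ≤ 2 * l :=
        (Real.log_le_log (by linarith) (by linarith)).trans hlT1
      have h5 : 0 ≤ Real.log ((m0 : ℝ) + 1) := Real.log_nonneg (by linarith)
      rw [← mul_div_assoc, div_le_iff₀ (by linarith)]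
      calc T * (Real.log ((m0 : ℝ) + 1) + 1) ≤ ((m0 : ℝ) + 1) * (2 * l + 1) :=
            mul_le_mul hTm0.le (by linarith) (by linarith) (by linarith)
        _ = (2 * l + 1) * ((m0 : ℝ) + 1) := mul_comm _ _
    have h4 : 4 * T * (GG ((m0 : ℝ) + 1) - GG ((N : ℝ) + 1)) ≤ 4 * (2 * l + 1) := by
      have h5 : 0 ≤ T * GG ((N : ℝ) + 1) := by positivity
      nlinarith
    nlinarith

lemma tsum_bound (T : ℝ) (hT : 2 ≤ T) :
    ∑' j : ℕ, ENNReal.ofReal (tj T j) ≤ ENNReal.ofReal (38 * Real.log T ^ 2) := by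
  apply ENNReal.tsum_le_of_sum_range_le
  intro N
  rw [← ENNReal.ofReal_sum_of_nonneg (fun j _ => tj_nonneg T hT j)]
  exact ENNReal.ofReal_le_ofReal (sum_bound T hT N)

lemma win (D : ℂ → ℂ) (K σ T c e : ℝ) (hK : 0 ≤ K) (hσ : 0 < σ) (hσ1 : σ ≤ 1) (hT : 2 ≤ T)
    (hc : 0 ≤ c) (he : 0 ≤ e) (hD : WindowBound D K) (y0 : ℝ) (j : ℕ)
    (hj : ∀ y ∈ Icc (y0 - 1 / 2) (y0 + 1 / 2), (j : ℝ) ≤ |y|) (hy0 : |y0| ≤ j + 1) :
    ∫⁻ y in Icc (y0 - 1 / 2) (y0 + 1 / 2), ENNReal.ofReal (c * (‖D ((σ : ℂ) + y * Complex.I)‖ + e) *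
      (min 1 (T / (1 + |y|)) / (1 + |y|))) ≤
      ENNReal.ofReal (c * (K + e) * (1 + Real.log (1 / σ)) * tj T j) := by
  set aj : ℝ := min 1 (T / (1 + (j : ℝ))) / (1 + j) with haj
  have hj0 : (0 : ℝ) ≤ j := Nat.cast_nonneg j
  have haj0 : 0 ≤ aj := div_nonneg (le_min zero_le_one (by positivity)) (by positivity)
  have hmono : ∀ y ∈ Icc (y0 - 1 / 2) (y0 + 1 / 2), min 1 (T / (1 + |y|)) / (1 + |y|) ≤ aj := by
    intro y hy
    have h1 := hj y hy
    rw [haj]
    apply div_le_div₀ (le_min zero_le_one (by positivity)) _ (by positivity) (by linarith)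
    apply min_le_min le_rfl
    gcongr
  have h1 : ∫⁻ y in Icc (y0 - 1 / 2) (y0 + 1 / 2), ENNReal.ofReal
      (c * (‖D ((σ : ℂ) + y * Complex.I)‖ + e) * (min 1 (T / (1 + |y|)) / (1 + |y|))) ≤
      ∫⁻ y in Icc (y0 - 1 / 2) (y0 + 1 / 2), ENNReal.ofReal (c * aj) *
        (ENNReal.ofReal ‖D ((σ : ℂ) + y * Complex.I)‖ + ENNReal.ofReal e) := by
    apply setLIntegral_mono' measurableSet_Icc
    intro y hy
    rw [← ENNReal.ofReal_add (norm_nonneg _) he, ← ENNReal.ofReal_mul (by positivity)]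
    apply ENNReal.ofReal_le_ofReal
    have h2 := hmono y hy
    have h3 : 0 ≤ ‖D ((σ : ℂ) + y * Complex.I)‖ + e := by positivity
    calc c * (‖D ((σ : ℂ) + y * Complex.I)‖ + e) * (min 1 (T / (1 + |y|)) / (1 + |y|))
        ≤ c * (‖D ((σ : ℂ) + y * Complex.I)‖ + e) * aj :=
          mul_le_mul_of_nonneg_left h2 (by positivity)
      _ = c * aj * (‖D ((σ : ℂ) + y * Complex.I)‖ + e) := by ring
  refine h1.trans ?_
  rw [lintegral_const_mul' _ _ ENNReal.ofReal_ne_top, lintegral_add_right _ measurable_const,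
    setLIntegral_const, Real.volume_Icc]
  have h2 : y0 + 1 / 2 - (y0 - 1 / 2) = 1 := by ring
  rw [h2, ENNReal.ofReal_one, mul_one]
  have hlog1 : 0 ≤ Real.log (1 / σ) := Real.log_nonneg (by rw [le_div_iff₀ hσ]; linarith)
  have hlog2 : 0 ≤ Real.log (2 + |y0|) := Real.log_nonneg (by have := abs_nonneg y0; linarith)
  have hlog3 : Real.log (2 + |y0|) ≤ Real.log (3 + j) :=
    Real.log_le_log (by have := abs_nonneg y0; linarith) (by linarith)
  have hlog4 : 1 ≤ Real.log (3 + j) := by
    rw [Real.le_log_iff_exp_le (by linarith)]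
    have := Real.exp_one_lt_d9
    linarith
  calc ENNReal.ofReal (c * aj) * ((∫⁻ y in Icc (y0 - 1 / 2) (y0 + 1 / 2),
        ENNReal.ofReal ‖D ((σ : ℂ) + y * Complex.I)‖) + ENNReal.ofReal e)
      ≤ ENNReal.ofReal (c * aj) *
        (ENNReal.ofReal (K * Real.log (2 + |y0|) * (1 + Real.log (1 / σ))) + ENNReal.ofReal e) := by
        gcongr
        exact hD σ hσ hσ1 y0
    _ = ENNReal.ofReal (c * aj * (K * Real.log (2 + |y0|) * (1 + Real.log (1 / σ)) + e)) := by
        rw [← ENNReal.ofReal_add (by positivity) he, ← ENNReal.ofReal_mul (by positivity)]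
    _ ≤ ENNReal.ofReal (c * (K + e) * (1 + Real.log (1 / σ)) * tj T j) := by
        apply ENNReal.ofReal_le_ofReal
        have h5 : K * Real.log (2 + |y0|) * (1 + Real.log (1 / σ)) + e ≤
            (K + e) * (1 + Real.log (1 / σ)) * Real.log (3 + j) := by
          have h6 : K * Real.log (2 + |y0|) * (1 + Real.log (1 / σ)) ≤
              K * Real.log (3 + j) * (1 + Real.log (1 / σ)) := by gcongr
          have h7 : e ≤ e * (1 + Real.log (1 / σ)) * Real.log (3 + j) := by
            have h8 : 1 ≤ (1 + Real.log (1 / σ)) * Real.log (3 + j) := by nlinarith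
            calc e = e * 1 := (mul_one e).symm
              _ ≤ e * ((1 + Real.log (1 / σ)) * Real.log (3 + j)) :=
                mul_le_mul_of_nonneg_left h8 he
              _ = _ := by ring
          calc _ ≤ K * Real.log (3 + j) * (1 + Real.log (1 / σ)) +
                e * (1 + Real.log (1 / σ)) * Real.log (3 + j) := add_le_add h6 h7
            _ = _ := by ring
        have h9 : tj T j = aj * Real.log (3 + j) := rfl
        rw [h9]
        calc c * aj * (K * Real.log (2 + |y0|) * (1 + Real.log (1 / σ)) + e)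
            ≤ c * aj * ((K + e) * (1 + Real.log (1 / σ)) * Real.log (3 + j)) :=
              mul_le_mul_of_nonneg_left h5 (by positivity)
          _ = _ := by ring

/-- the far part -/
lemma far (D : ℂ → ℂ) (K σ T c e : ℝ) (hK : 0 ≤ K) (hσ : 0 < σ) (hσ1 : σ ≤ 1) (hT : 2 ≤ T)
    (hc : 0 ≤ c) (he : 0 ≤ e) (hD : WindowBound D K) :
    ∫⁻ y : ℝ, ENNReal.ofReal (c * (‖D ((σ : ℂ) + y * Complex.I)‖ + e) *
      (min 1 (T / (1 + |y|)) / (1 + |y|))) ≤
      ENNReal.ofReal (76 * c * (K + e) * Real.log T ^ 2 * (1 + Real.log (1 / σ))) := by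
  have hlog1 : 0 ≤ Real.log (1 / σ) := Real.log_nonneg (by rw [le_div_iff₀ hσ]; linarith)
  set F : ℝ → ENNReal := fun y => ENNReal.ofReal (c * (‖D ((σ : ℂ) + y * Complex.I)‖ + e) *
      (min 1 (T / (1 + |y|)) / (1 + |y|))) with hF
  set W : ℕ → Set ℝ := fun j => Icc (((j : ℝ) + 1 / 2) - 1 / 2) (((j : ℝ) + 1 / 2) + 1 / 2) ∪
    Icc ((-((j : ℝ) + 1 / 2)) - 1 / 2) ((-((j : ℝ) + 1 / 2)) + 1 / 2) with hW
  have hcov : (univ : Set ℝ) ⊆ ⋃ j, W j := by
    intro y _
    rw [mem_iUnion]
    refine ⟨⌊|y|⌋₊, ?_⟩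
    have h1 : (⌊|y|⌋₊ : ℝ) ≤ |y| := Nat.floor_le (abs_nonneg y)
    have h2 : |y| < ⌊|y|⌋₊ + 1 := Nat.lt_floor_add_one _
    rcases le_total 0 y with h | h
    · left
      rw [abs_of_nonneg h] at h1 h2 ⊢
      exact ⟨by linarith, by linarith⟩
    · right
      rw [abs_of_nonpos h] at h1 h2 ⊢
      exact ⟨by linarith, by linarith⟩
  have h1 : ∫⁻ y, F y ≤ ∑' j, ∫⁻ y in W j, F y := by
    calc ∫⁻ y, F y = ∫⁻ y in univ, F y := by rw [setLIntegral_univ]
      _ ≤ ∫⁻ y in ⋃ j, W j, F y := lintegral_mono_set hcov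
      _ ≤ _ := lintegral_iUnion_le _ _
  have h2 : ∀ j : ℕ, ∫⁻ y in W j, F y ≤
      ENNReal.ofReal (2 * (c * (K + e) * (1 + Real.log (1 / σ)))) * ENNReal.ofReal (tj T j) := by
    intro j
    have hj0 : (0 : ℝ) ≤ j := Nat.cast_nonneg j
    have e1 := win D K σ T c e hK hσ hσ1 hT hc he hD ((j : ℝ) + 1 / 2) j
      (by
        intro y hy
        have : (j : ℝ) ≤ y := by have := hy.1; linarith
        exact this.trans (le_abs_self y))
      (by rw [abs_of_nonneg (by linarith)]; linarith)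
    have e2 := win D K σ T c e hK hσ hσ1 hT hc he hD (-((j : ℝ) + 1 / 2)) j
      (by
        intro y hy
        have : (j : ℝ) ≤ -y := by have := hy.2; linarith
        exact this.trans (neg_le_abs y))
      (by rw [abs_neg, abs_of_nonneg (by linarith)]; linarith)
    calc ∫⁻ y in W j, F y ≤ _ + _ := lintegral_union_le _ _ _
      _ ≤ ENNReal.ofReal (c * (K + e) * (1 + Real.log (1 / σ)) * tj T j) +
        ENNReal.ofReal (c * (K + e) * (1 + Real.log (1 / σ)) * tj T j) := add_le_add e1 e2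
      _ = _ := by
        have h0 := tj_nonneg T hT j
        rw [← ENNReal.ofReal_add (by positivity) (by positivity), ← ENNReal.ofReal_mul (by positivity)]
        congr 1
        ring
  calc ∫⁻ y, F y ≤ ∑' j, ∫⁻ y in W j, F y := h1
    _ ≤ ∑' j, ENNReal.ofReal (2 * (c * (K + e) * (1 + Real.log (1 / σ)))) *
        ENNReal.ofReal (tj T j) := ENNReal.tsum_le_tsum h2
    _ = ENNReal.ofReal (2 * (c * (K + e) * (1 + Real.log (1 / σ)))) *
        ∑' j, ENNReal.ofReal (tj T j) := ENNReal.tsum_mul_left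
    _ ≤ ENNReal.ofReal (2 * (c * (K + e) * (1 + Real.log (1 / σ)))) *
        ENNReal.ofReal (38 * Real.log T ^ 2) := by gcongr; exact tsum_bound T hT
    _ = _ := by
      rw [← ENNReal.ofReal_mul (by positivity)]
      congr 1
      ring

lemma near_half (σ δ m : ℝ) (hσ : 0 < σ) (hσ1 : σ ≤ 1) (hδ : 0 < δ) (hm : 0 ≤ m) :
    ∫⁻ y in Icc 0 δ, ENNReal.ofReal (m * (1 / (σ + y))) ≤
      ENNReal.ofReal (m * (Real.log (1 + δ) + Real.log (1 / σ))) := by
  have hcont : ContinuousOn (fun y : ℝ => m * (1 / (σ + y))) (Icc 0 δ) := by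
    apply ContinuousOn.mul continuousOn_const
    apply ContinuousOn.div continuousOn_const (by fun_prop)
    intro y hy
    have := hy.1
    positivity
  have hint : IntegrableOn (fun y : ℝ => m * (1 / (σ + y))) (Icc 0 δ) := hcont.integrableOn_Icc
  rw [← ofReal_integral_eq_lintegral_ofReal hint]
  · apply ENNReal.ofReal_le_ofReal
    rw [integral_Icc_eq_integral_Ioc, ← intervalIntegral.integral_of_le hδ.le,
      intervalIntegral.integral_const_mul,
      intervalIntegral.integral_comp_add_left (fun x : ℝ => 1 / x) σ,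
      integral_one_div_of_pos (by linarith) (by linarith), add_zero]
    apply mul_le_mul_of_nonneg_left _ hm
    rw [Real.log_div (by linarith) hσ.ne', Real.log_div one_ne_zero hσ.ne', Real.log_one]
    have : Real.log (σ + δ) ≤ Real.log (1 + δ) := Real.log_le_log (by linarith) (by linarith)
    linarith
  · rw [Filter.EventuallyLE, ae_restrict_iff' measurableSet_Icc]
    filter_upwards with y hy
    have := hy.1
    simp only [Pi.zero_apply]
    positivity

lemma near_half' (σ δ m : ℝ) (hσ : 0 < σ) (hσ1 : σ ≤ 1) (hδ : 0 < δ) (hm : 0 ≤ m) :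
    ∫⁻ y in Icc (-δ) 0, ENNReal.ofReal (m * (1 / (σ - y))) ≤
      ENNReal.ofReal (m * (Real.log (1 + δ) + Real.log (1 / σ))) := by
  have hcont : ContinuousOn (fun y : ℝ => m * (1 / (σ - y))) (Icc (-δ) 0) := by
    apply ContinuousOn.mul continuousOn_const
    apply ContinuousOn.div continuousOn_const (by fun_prop)
    intro y hy
    have := hy.2
    have : 0 < σ - y := by linarith
    exact this.ne'
  have hint : IntegrableOn (fun y : ℝ => m * (1 / (σ - y))) (Icc (-δ) 0) := hcont.integrableOn_Icc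
  rw [← ofReal_integral_eq_lintegral_ofReal hint]
  · apply ENNReal.ofReal_le_ofReal
    rw [integral_Icc_eq_integral_Ioc, ← intervalIntegral.integral_of_le (by linarith),
      intervalIntegral.integral_const_mul,
      intervalIntegral.integral_comp_sub_left (fun x : ℝ => 1 / x) σ,
      integral_one_div_of_pos (by linarith) (by linarith), sub_zero, sub_neg_eq_add]
    apply mul_le_mul_of_nonneg_left _ hm
    rw [Real.log_div (by linarith) hσ.ne', Real.log_div one_ne_zero hσ.ne', Real.log_one]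
    have : Real.log (σ + δ) ≤ Real.log (1 + δ) := Real.log_le_log (by linarith) (by linarith)
    linarith
  · rw [Filter.EventuallyLE, ae_restrict_iff' measurableSet_Icc]
    filter_upwards with y hy
    have := hy.2
    have h2 : 0 < σ - y := by linarith
    simp only [Pi.zero_apply]
    positivity

/-- the near part -/
lemma near (σ δ m : ℝ) (hσ : 0 < σ) (hσ1 : σ ≤ 1) (hδ : 0 < δ) (hm : 0 ≤ m) :
    ∫⁻ y : ℝ, (Icc (-δ) δ).indicator (fun y => ENNReal.ofReal (m * (1 / (σ + |y|)))) y ≤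
      ENNReal.ofReal (2 * m * (Real.log (1 + δ) + Real.log (1 / σ))) := by
  rw [lintegral_indicator measurableSet_Icc]
  have hsub : Icc (-δ) δ ⊆ Icc (-δ) 0 ∪ Icc 0 δ := by
    intro y hy
    rcases le_total 0 y with h | h
    · exact Or.inr ⟨h, hy.2⟩
    · exact Or.inl ⟨hy.1, h⟩
  have hlog1 : 0 ≤ Real.log (1 / σ) := Real.log_nonneg (by rw [le_div_iff₀ hσ]; linarith)
  have hlog2 : 0 ≤ Real.log (1 + δ) := Real.log_nonneg (by linarith)
  calc ∫⁻ y in Icc (-δ) δ, ENNReal.ofReal (m * (1 / (σ + |y|)))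
      ≤ ∫⁻ y in Icc (-δ) 0 ∪ Icc 0 δ, ENNReal.ofReal (m * (1 / (σ + |y|))) :=
        lintegral_mono_set hsub
    _ ≤ (∫⁻ y in Icc (-δ) 0, ENNReal.ofReal (m * (1 / (σ + |y|)))) +
        ∫⁻ y in Icc 0 δ, ENNReal.ofReal (m * (1 / (σ + |y|))) := lintegral_union_le _ _ _
    _ = (∫⁻ y in Icc (-δ) 0, ENNReal.ofReal (m * (1 / (σ - y)))) +
        ∫⁻ y in Icc 0 δ, ENNReal.ofReal (m * (1 / (σ + y))) := by
        congr 1
        · apply setLIntegral_congr_fun measurableSet_Icc
          intro y hy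
          simp only
          rw [abs_of_nonpos hy.2, ← sub_eq_add_neg]
        · apply setLIntegral_congr_fun measurableSet_Icc
          intro y hy
          simp only
          rw [abs_of_nonneg hy.1]
    _ ≤ ENNReal.ofReal (m * (Real.log (1 + δ) + Real.log (1 / σ))) +
        ENNReal.ofReal (m * (Real.log (1 + δ) + Real.log (1 / σ))) :=
        add_le_add (near_half' σ δ m hσ hσ1 hδ hm) (near_half σ δ m hσ hσ1 hδ hm)
    _ = _ := by
        rw [← ENNReal.ofReal_add (by positivity) (by positivity)]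
        congr 1
        ring

theorem lin : LIN := by
  intro D K M δ n hK hδ _ hD hM
  set e : ℝ := |n| / δ with he
  set c : ℝ := 1 + 1 / δ with hc
  have hc1 : 1 ≤ c := by
    have : 0 < 1 / δ := by positivity
    linarith
  have he0 : 0 ≤ e := by positivity
  have hldel : 0 ≤ Real.log (1 + δ) := Real.log_nonneg (by linarith)
  refine ⟨76 * c ^ 2 * (K + e) + 16 * |M| * (1 + Real.log (1 + δ)), by positivity, ?_⟩
  intro σ hσ hσ1 T hT
  have hT0 : 0 < T := by linarith
  have hlog1 : 0 ≤ Real.log (1 / σ) := Real.log_nonneg (by rw [le_div_iff₀ hσ]; linarith)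
  set A : ℝ → ENNReal := (Icc (-δ) δ).indicator
    (fun y => ENNReal.ofReal (2 * |M| * (1 / (σ + |y|)))) with hA
  set B : ℝ → ENNReal := fun y => ENNReal.ofReal (c ^ 2 * (‖D ((σ : ℂ) + y * Complex.I)‖ + e) *
      (min 1 (T / (1 + |y|)) / (1 + |y|))) with hB
  have hAm : Measurable A := by
    rw [hA]
    apply Measurable.indicator _ measurableSet_Icc
    apply ENNReal.measurable_ofReal.comp
    have : Continuous fun y : ℝ => 2 * |M| * (1 / (σ + |y|)) := by
      apply Continuous.mul continuous_const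
      apply Continuous.div continuous_const (by fun_prop)
      intro y
      have := abs_nonneg y
      positivity
    exact this.measurable
  have hpt : ∀ y : ℝ, ENNReal.ofReal (‖D ((σ : ℂ) + y * Complex.I) -
      n / ((σ : ℂ) + y * Complex.I)‖ / ‖(σ : ℂ) + y * Complex.I‖ *
        min 1 (T / ‖(σ : ℂ) + y * Complex.I‖)) ≤ A y + B y := by
    intro y
    set w : ℂ := (σ : ℂ) + y * Complex.I with hw
    have hre : w.re = σ := by simp [hw]
    have him : w.im = y := by simp [hw]
    have h1 : σ ≤ ‖w‖ := by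
      have := Complex.abs_re_le_norm w
      rw [hre, abs_of_pos hσ] at this
      exact this
    have h2 : |y| ≤ ‖w‖ := by
      have := Complex.abs_im_le_norm w
      rwa [him] at this
    have hw0 : 0 < ‖w‖ := by linarith
    have hy0 := abs_nonneg y
    rcases lt_or_ge ‖w‖ δ with h3 | h3
    · have h4 := hM w (by rw [hre]; exact hσ) h3
      have h5 : A y = ENNReal.ofReal (2 * |M| * (1 / (σ + |y|))) := by
        rw [hA, indicator_of_mem]
        rw [mem_Icc, ← abs_le]
        linarith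
      refine le_trans ?_ (le_add_right le_rfl)
      rw [h5]
      apply ENNReal.ofReal_le_ofReal
      have h6 : min 1 (T / ‖w‖) ≤ 1 := min_le_left _ _
      have h7 : ‖D w - n / w‖ ≤ |M| := h4.trans (le_abs_self M)
      have h8 : ‖D w - n / w‖ / ‖w‖ ≤ 2 * |M| * (1 / (σ + |y|)) := by
        rw [mul_one_div, div_le_div_iff₀ hw0 (by positivity)]
        have h9 : σ + |y| ≤ 2 * ‖w‖ := by linarith
        calc ‖D w - n / w‖ * (σ + |y|) ≤ |M| * (2 * ‖w‖) :=
              mul_le_mul h7 h9 (by positivity) (abs_nonneg M)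
          _ = _ := by ring
      calc ‖D w - n / w‖ / ‖w‖ * min 1 (T / ‖w‖) ≤ ‖D w - n / w‖ / ‖w‖ * 1 :=
            mul_le_mul_of_nonneg_left h6 (by positivity)
        _ = ‖D w - n / w‖ / ‖w‖ := mul_one _
        _ ≤ _ := h8
    · refine le_trans ?_ (le_add_left le_rfl)
      rw [hB]
      apply ENNReal.ofReal_le_ofReal
      have h4 : 1 + |y| ≤ c * ‖w‖ := by
        have h5 : 1 ≤ 1 / δ * ‖w‖ := by
          rw [one_div, ← div_eq_inv_mul, le_div_iff₀ hδ]
          linarith
        rw [hc]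
        nlinarith
      have h5 : ‖D w - n / w‖ ≤ ‖D w‖ + e := by
        refine (norm_sub_le _ _).trans ?_
        have h6 : ‖(n : ℂ) / w‖ ≤ e := by
          rw [norm_div, Complex.norm_real, Real.norm_eq_abs, he]
          gcongr
        linarith
      have h6 : 1 / ‖w‖ ≤ c * (1 / (1 + |y|)) := by
        rw [mul_one_div, div_le_div_iff₀ hw0 (by positivity)]
        linarith
      have h7 : min 1 (T / ‖w‖) ≤ c * min 1 (T / (1 + |y|)) := by
        rw [mul_min_of_nonneg _ _ (by linarith)]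
        apply min_le_min
        · linarith
        · calc T / ‖w‖ = T * (1 / ‖w‖) := by ring
            _ ≤ T * (c * (1 / (1 + |y|))) := mul_le_mul_of_nonneg_left h6 hT0.le
            _ = _ := by ring
      have h8 : 0 ≤ min 1 (T / ‖w‖) := le_min zero_le_one (by positivity)
      have h9 : 0 ≤ min 1 (T / (1 + |y|)) := le_min zero_le_one (by positivity)
      calc ‖D w - n / w‖ / ‖w‖ * min 1 (T / ‖w‖)
          = ‖D w - n / w‖ * (1 / ‖w‖) * min 1 (T / ‖w‖) := by ring
        _ ≤ (‖D w‖ + e) * (c * (1 / (1 + |y|))) * (c * min 1 (T / (1 + |y|))) := by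
            gcongr
        _ = _ := by ring
  calc ∫⁻ y : ℝ, ENNReal.ofReal (‖D ((σ : ℂ) + y * Complex.I) -
      n / ((σ : ℂ) + y * Complex.I)‖ / ‖(σ : ℂ) + y * Complex.I‖ *
        min 1 (T / ‖(σ : ℂ) + y * Complex.I‖))
      ≤ ∫⁻ y, (A y + B y) := lintegral_mono hpt
    _ = (∫⁻ y, A y) + ∫⁻ y, B y := lintegral_add_left hAm _
    _ ≤ ENNReal.ofReal (2 * (2 * |M|) * (Real.log (1 + δ) + Real.log (1 / σ))) +
        ENNReal.ofReal (76 * c ^ 2 * (K + e) * Real.log T ^ 2 * (1 + Real.log (1 / σ))) :=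
        add_le_add (near σ δ (2 * |M|) hσ hσ1 hδ (by positivity))
          (far D K σ T (c ^ 2) e hK hσ hσ1 hT (by positivity) he0 hD)
    _ = ENNReal.ofReal (2 * (2 * |M|) * (Real.log (1 + δ) + Real.log (1 / σ)) +
        76 * c ^ 2 * (K + e) * Real.log T ^ 2 * (1 + Real.log (1 / σ))) := by
        rw [ENNReal.ofReal_add (by positivity) (by positivity)]
    _ ≤ _ := by
        apply ENNReal.ofReal_le_ofReal
        have hl2 : 1 / 2 ≤ Real.log T := by
          have h1 : Real.log 2 ≤ Real.log T := Real.log_le_log (by norm_num) hT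
          have := Real.log_two_gt_d9
          linarith
        have hl4 : 1 ≤ 4 * Real.log T ^ 2 := by nlinarith
        have h1 : Real.log (1 + δ) + Real.log (1 / σ) ≤
            (1 + Real.log (1 + δ)) * (1 + Real.log (1 / σ)) := by nlinarith [mul_nonneg hldel hlog1]
        have h2 : 2 * (2 * |M|) * (Real.log (1 + δ) + Real.log (1 / σ)) ≤
            16 * |M| * (1 + Real.log (1 + δ)) * Real.log T ^ 2 * (1 + Real.log (1 / σ)) := by
          calc 2 * (2 * |M|) * (Real.log (1 + δ) + Real.log (1 / σ))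
              ≤ 2 * (2 * |M|) * ((1 + Real.log (1 + δ)) * (1 + Real.log (1 / σ))) :=
                mul_le_mul_of_nonneg_left h1 (by positivity)
            _ = 4 * |M| * (1 + Real.log (1 + δ)) * (1 + Real.log (1 / σ)) * 1 := by ring
            _ ≤ 4 * |M| * (1 + Real.log (1 + δ)) * (1 + Real.log (1 / σ)) *
                (4 * Real.log T ^ 2) := mul_le_mul_of_nonneg_left hl4 (by positivity)
            _ = _ := by ring
        calc _ ≤ 16 * |M| * (1 + Real.log (1 + δ)) * Real.log T ^ 2 * (1 + Real.log (1 / σ)) +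
              76 * c ^ 2 * (K + e) * Real.log T ^ 2 * (1 + Real.log (1 / σ)) :=
              add_le_add h2 le_rfl
          _ = _ := by ring

end Pool.Agent.W271.SP
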